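import Pool.Agent.Helper54.R1.Geo

set_option autoImplicit false

/-! # Region R1 (MP_a8383f_co), packet XH: feasible path from the exact HCP state -/

namespace Pool.Agent.Helper42.R1

open Real Pool.Agent.Helper66.Kiss Pool.Agent.Helper54.R1 Pool.Agent.Helper65.R1

lemma gg_of {z w a b c : ℝ} (h : cos (a - b) = c)
    (h2 : √(1 - z ^ 2) * √(1 - w ^ 2) * c + z * w ≤ 1 / 2) : gg z w a b ≤ 1 / 2 := by
  unfold gg
  rw [h]; exact h2

lemma gg_np {z w a b : ℝ} (h : cos (a - b) ≤ 0) (h2 : z * w ≤ 1 / 2) : gg z w a b ≤ 1 / 2 := by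
  unfold gg
  have : √(1 - z ^ 2) * √(1 - w ^ 2) * cos (a - b) ≤ 0 :=
    mul_nonpos_of_nonneg_of_nonpos (by positivity) h
  linarith

theorem xh : XH_stmt := by
  intro GA GB s t ht0 ht1
  have h2 : (0 : ℝ) < √2 := by positivity
  have h21 : (1 : ℝ) ≤ √2 := Real.one_le_sqrt.2 (by norm_num)
  set x := t / √2 with hx
  have hx0 : 0 ≤ x := by positivity
  have hx1 : x ≤ 1 / 16 := (div_le_self ht0 h21).trans ht1
  have HA := GA t ht0 ht1
  have HB := GB t ht0 ht1
  rw [← hx] at HA HB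
  unfold gg at HA HB
  rw [zero_sub, cos_neg] at HA HB
  have hT := T0_num
  have hp1 := Real.pi_gt_d4
  have hp2 := Real.pi_lt_d4
  have np : ∀ u, π / 2 ≤ u → u ≤ π + π / 2 → cos u ≤ 0 := fun u h1 h2 =>
    Real.cos_nonpos_of_pi_div_two_le_of_le h1 h2
  have fa : (fun k => AH k + t * (sH k / √2)) = ![T0 + x, 3 * T0 - x, π + T0 - x, 2 * π - T0 - x] := by
    funext k
    match k with
    | 0 => simp only [AH, sH, hx]; show T0 + t * (1 / √2) = T0 + t / √2; ring
    | 1 => simp only [AH, sH, hx]; show 3 * T0 + t * (-1 / √2) = 3 * T0 - t / √2; ring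
    | 2 => simp only [AH, sH, hx]; show π + T0 + t * (-1 / √2) = π + T0 - t / √2; ring
    | 3 => simp only [AH, sH, hx]; show 2 * π - T0 + t * (-1 / √2) = 2 * π - T0 - t / √2; ring
  have fb : (fun k => AH k - t * (sH k / √2)) = ![T0 - x, 3 * T0 + x, π + T0 + x, 2 * π - T0 + x] := by
    funext k
    match k with
    | 0 => simp only [AH, sH, hx]; show T0 - t * (1 / √2) = T0 - t / √2; ring
    | 1 => simp only [AH, sH, hx]; show 3 * T0 - t * (-1 / √2) = 3 * T0 + t / √2; ring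
    | 2 => simp only [AH, sH, hx]; show π + T0 - t * (-1 / √2) = π + T0 + t / √2; ring
    | 3 => simp only [AH, sH, hx]; show 2 * π - T0 - t * (-1 / √2) = 2 * π - T0 + t / √2; ring
  rw [fa, fb]
  have B34 : √(1 - (1 / 2 : ℝ) ^ 2) * √(1 - (1 / 2 : ℝ) ^ 2) = 3 / 4 := by
    rw [Real.mul_self_sqrt (by norm_num)]; norm_num
  have B34' : √(1 - (-1 / 2 : ℝ) ^ 2) * √(1 - (-1 / 2 : ℝ) ^ 2) = 3 / 4 := by
    rw [Real.mul_self_sqrt (by norm_num)]; norm_num
  have hs1 : √(1 - (-1 : ℝ) ^ 2) = 0 := by norm_num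
  have c13 : cos (π - 2 * T0) = 1 / 3 := by rw [Real.cos_pi_sub, cos_two_T0]; norm_num
  have e1 : √(1 - (1 / 2 - (0 : ℝ)) ^ 2) = √(1 - (1 / 2) ^ 2) := by congr 2; norm_num
  have e2 : √(1 - (-1 / 2 - (0 : ℝ)) ^ 2) = √(1 - (1 / 2) ^ 2) := by congr 1; norm_num
  have e3 : √(1 - (-t) ^ 2) = √(1 - t ^ 2) := by rw [neg_sq]
  rw [e3] at HB
  have fA1 : √(1 - t ^ 2) * √(1 - (1 / 2 - (0 : ℝ)) ^ 2) * cos (T0 + x) + t * (1 / 2 - 0) ≤ 1 / 2 := by
    rw [e1]; linarith
  have fA2 : √(1 - (-t) ^ 2) * √(1 - (-1 / 2 - (0 : ℝ)) ^ 2) * cos (T0 + x) + (-t) * (-1 / 2 - 0) ≤ 1 / 2 := by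
    rw [e2, e3]; linarith
  have fB1 : √(1 - (-t) ^ 2) * √(1 - (1 / 2 - (0 : ℝ)) ^ 2) * cos (T0 - x) + (-t) * (1 / 2 - 0) ≤ 1 / 2 := by
    rw [e1, e3]; linarith
  have fB2 : √(1 - t ^ 2) * √(1 - (-1 / 2 - (0 : ℝ)) ^ 2) * cos (T0 - x) + t * (-1 / 2 - 0) ≤ 1 / 2 := by
    rw [e2]; linarith
  -- pairs of one side
  have UU : ∀ z : ℝ, z = 1 / 2 ∨ z = -1 / 2 → ∀ a b, cos (a - b) ≤ 1 / 3 → gg z z a b ≤ 1 / 2 := by
    intro z hz a b hc
    unfold gg
    rcases hz with rfl | rfl
    · rw [B34]; linarith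
    · rw [B34']; linarith
  have same : ∀ (z : ℝ) (f : Fin 4 → ℝ), (z = 1 / 2 ∨ z = -1 / 2) → cos (f 0 - f 1) ≤ 1 / 3 →
      cos (f 0 - f 2) ≤ 1 / 3 → cos (f 0 - f 3) ≤ 1 / 3 → cos (f 1 - f 2) ≤ 1 / 3 →
      cos (f 1 - f 3) ≤ 1 / 3 → cos (f 2 - f 3) ≤ 1 / 3 → ∀ j k : Fin 4, j ≠ k →
      gg z z (f j) (f k) ≤ 1 / 2 := by
    intro z f hz h01 h02 h03 h12 h13 h23 j k hjk
    have sy : ∀ u v : ℝ, cos (u - v) = cos (v - u) := fun u v => by rw [← cos_neg, neg_sub]
    apply UU z hz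
    fin_cases j <;> fin_cases k <;> first
      | exact absurd rfl hjk
      | assumption
      | (rw [sy]; assumption)
  have hT0 := cos_two_T0
  refine ⟨?_, ?_, ?_, ?_, ?_, ?_, ?_, ?_, ?_, ?_, ?_, ?_⟩
  · apply gg_np
    · rw [zero_sub, cos_neg]; exact np _ (by linarith) (by linarith)
    · nlinarith
  · unfold gg; rw [hs1]; linarith
  · unfold gg; rw [hs1]; linarith
  · intro k
    match k with
    | 0 =>
      refine gg_of (c := cos (T0 + x)) ?_ fA1
      show cos (0 - (T0 + x)) = _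
      rw [zero_sub, cos_neg]
    | 1 =>
      refine gg_np ?_ (by simp; linarith)
      show cos (0 - (3 * T0 - x)) ≤ 0
      rw [zero_sub, cos_neg]; exact np _ (by linarith) (by linarith)
    | 2 =>
      refine gg_np ?_ (by simp; linarith)
      show cos (0 - (π + T0 - x)) ≤ 0
      rw [zero_sub, cos_neg]; exact np _ (by linarith) (by linarith)
    | 3 =>
      refine gg_of (c := cos (T0 + x)) ?_ fA1
      show cos (0 - (2 * π - T0 - x)) = _
      rw [show 0 - (2 * π - T0 - x) = T0 + x - 2 * π by ring, cos_sub_two_pi]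
  · intro k
    match k with
    | 0 =>
      refine gg_of (c := cos (T0 - x)) ?_ fB1
      show cos (2 * T0 - (T0 + x)) = _
      congr 1; ring
    | 1 =>
      refine gg_of (c := cos (T0 - x)) ?_ fB1
      show cos (2 * T0 - (3 * T0 - x)) = _
      rw [← cos_neg]; congr 1; ring
    | 2 =>
      refine gg_np ?_ (by simp; linarith)
      show cos (2 * T0 - (π + T0 - x)) ≤ 0
      rw [← cos_neg]; exact np _ (by linarith) (by linarith)
    | 3 =>
      refine gg_np ?_ (by simp; linarith)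
      show cos (2 * T0 - (2 * π - T0 - x)) ≤ 0
      rw [← cos_neg]; exact np _ (by linarith) (by linarith)
  · intro k; unfold gg; rw [hs1]; simp; try linarith
  · intro k
    match k with
    | 0 =>
      refine gg_of (c := cos (T0 - x)) ?_ fB2
      show cos (0 - (T0 - x)) = _
      rw [zero_sub, cos_neg]
    | 1 =>
      refine gg_np ?_ (by simp; linarith)
      show cos (0 - (3 * T0 + x)) ≤ 0
      rw [zero_sub, cos_neg]; exact np _ (by linarith) (by linarith)
    | 2 =>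
      refine gg_np ?_ (by simp; linarith)
      show cos (0 - (π + T0 + x)) ≤ 0
      rw [zero_sub, cos_neg]; exact np _ (by linarith) (by linarith)
    | 3 =>
      refine gg_of (c := cos (T0 - x)) ?_ fB2
      show cos (0 - (2 * π - T0 + x)) = _
      rw [show 0 - (2 * π - T0 + x) = T0 - x - 2 * π by ring, cos_sub_two_pi]
  · intro k
    match k with
    | 0 =>
      refine gg_of (c := cos (T0 + x)) ?_ fA2
      show cos (2 * T0 - (T0 - x)) = _
      congr 1; ring
    | 1 =>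
      refine gg_of (c := cos (T0 + x)) ?_ fA2
      show cos (2 * T0 - (3 * T0 + x)) = _
      rw [← cos_neg]; congr 1; ring
    | 2 =>
      refine gg_np ?_ (by simp; linarith)
      show cos (2 * T0 - (π + T0 + x)) ≤ 0
      rw [← cos_neg]; exact np _ (by linarith) (by linarith)
    | 3 =>
      refine gg_np ?_ (by simp; linarith)
      show cos (2 * T0 - (2 * π - T0 + x)) ≤ 0
      rw [← cos_neg]; exact np _ (by linarith) (by linarith)
  · intro k; unfold gg; rw [hs1]; simp; norm_num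
  · have := same (1 / 2) ![T0 + x, 3 * T0 - x, π + T0 - x, 2 * π - T0 - x] (Or.inl rfl)
      (by
        show cos (T0 + x - (3 * T0 - x)) ≤ 1 / 3
        rw [← cos_neg]; linarith [np (-(T0 + x - (3 * T0 - x))) (by linarith) (by linarith)])
      (by
        show cos (T0 + x - (π + T0 - x)) ≤ 1 / 3
        rw [← cos_neg]; linarith [np (-(T0 + x - (π + T0 - x))) (by linarith) (by linarith)])
      (by
        show cos (T0 + x - (2 * π - T0 - x)) ≤ 1 / 3
        rw [← cos_neg]; linarith [np (-(T0 + x - (2 * π - T0 - x))) (by linarith) (by linarith)])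
      (by
        show cos (3 * T0 - x - (π + T0 - x)) ≤ 1 / 3
        rw [← cos_neg, show -(3 * T0 - x - (π + T0 - x)) = π - 2 * T0 by ring, c13])
      (by
        show cos (3 * T0 - x - (2 * π - T0 - x)) ≤ 1 / 3
        rw [← cos_neg]; linarith [np (-(3 * T0 - x - (2 * π - T0 - x))) (by linarith) (by linarith)])
      (by
        show cos (π + T0 - x - (2 * π - T0 - x)) ≤ 1 / 3
        rw [← cos_neg, show -(π + T0 - x - (2 * π - T0 - x)) = π - 2 * T0 by ring, c13])
    intro j k hjk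
    simpa using this j k hjk
  · have := same (-1 / 2) ![T0 - x, 3 * T0 + x, π + T0 + x, 2 * π - T0 + x] (Or.inr rfl)
      (by
        show cos (T0 - x - (3 * T0 + x)) ≤ 1 / 3
        rw [← cos_neg]; linarith [np (-(T0 - x - (3 * T0 + x))) (by linarith) (by linarith)])
      (by
        show cos (T0 - x - (π + T0 + x)) ≤ 1 / 3
        rw [← cos_neg]; linarith [np (-(T0 - x - (π + T0 + x))) (by linarith) (by linarith)])
      (by
        show cos (T0 - x - (2 * π - T0 + x)) ≤ 1 / 3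
        rw [← cos_neg]; linarith [np (-(T0 - x - (2 * π - T0 + x))) (by linarith) (by linarith)])
      (by
        show cos (3 * T0 + x - (π + T0 + x)) ≤ 1 / 3
        rw [← cos_neg, show -(3 * T0 + x - (π + T0 + x)) = π - 2 * T0 by ring, c13])
      (by
        show cos (3 * T0 + x - (2 * π - T0 + x)) ≤ 1 / 3
        rw [← cos_neg]; linarith [np (-(3 * T0 + x - (2 * π - T0 + x))) (by linarith) (by linarith)])
      (by
        show cos (π + T0 + x - (2 * π - T0 + x)) ≤ 1 / 3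
        rw [← cos_neg, show -(π + T0 + x - (2 * π - T0 + x)) = π - 2 * T0 by ring, c13])
    intro j k hjk
    simpa using this j k hjk
  · intro j k
    unfold gg
    have h1 : √(1 - (1 / 2 - (0 : Fin 4 → ℝ) j) ^ 2) * √(1 - (-1 / 2 - (0 : Fin 4 → ℝ) k) ^ 2) = 3 / 4 := by
      simp only [Pi.zero_apply]
      rw [e1, e2, B34]
    rw [h1]
    simp only [Pi.zero_apply, sub_zero]
    have := Real.cos_le_one (![T0 + x, 3 * T0 - x, π + T0 - x, 2 * π - T0 - x] j -
      ![T0 - x, 3 * T0 + x, π + T0 + x, 2 * π - T0 + x] k)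
    linarith

end Pool.Agent.Helper42.R1
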